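import Pool.Agent.H45.UZ.TarP

/-!
# MP_f6fd33_lc, module PW3 (3.3): histories with the same values
-/

open Ordinal Order Set
open scoped ZFSet

namespace SE.UZ

open SF

namespace PW3a

/-- the values of `h` and `h1` on the generic filters of `ρ` are the same -/
def Eqv (D : Cx) (ρ h h1 : V) : Prop :=
  ∀ G, D.Gn ρ G → ∀ X y e, (Ent h G X y e ↔ Ent h1 G X y e)

theorem Eqv.symm {D : Cx} {ρ h h1 : V} (H : Eqv D ρ h h1) : Eqv D ρ h1 h :=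
  fun G hG X y e => (H G hG X y e).symm

theorem Eqv.hr {D : Cx} {ρ h h1 : V} {σ : Ordinal.{0}} (hPHA : T_PHA) (hD : D.Ok) (hn : D.N ρ)
    (hc : Cld D.L ρ) (hh : His D ρ h σ) (hh1 : His D ρ h1 σ) (H : Eqv D ρ h h1)
    (e : Ordinal.{0}) : Eqv D ρ (hr h e) (hr h1 e) := by
  intro G hG X y d
  have a := ((hPHA D hD ρ ρ h σ hn hc hn hc (fun _ hx => hx) hh).2.1 e).2.2.2.2 G X y d
  have a1 := ((hPHA D hD ρ ρ h1 σ hn hc hn hc (fun _ hx => hx) hh1).2.1 e).2.2.2.2 G X y d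
  rw [a, a1, H G hG X y d]

theorem lw_l {b : BS} {D : Cx} {σ : Ordinal.{0}} {B h h1 C h0 : V} (H : Eqv D (b.u B) h h1)
    (w : b.LW D σ C h0 B h) : b.LW D σ C h0 B h1 :=
  ⟨w.le, fun G hG X hX y e => by rw [← H G hG X y e]; exact w.e G hG X hX y e⟩

theorem lw_r {b : BS} {D : Cx} {κ : V} {σ σ' : Ordinal.{0}} {B h h1 C h0 : V} (hPHA : T_PHA)
    (hBL : T_BL) (am : Amb D κ) (ok : b.Ok D κ) (hh : His D (b.u B) h σ')
    (hh1 : His D (b.u B) h1 σ') (H : Eqv D (b.u B) h h1)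
    (w : b.LW D σ B h C h0) : b.LW D σ B h1 C h0 := by
  obtain ⟨hB, hC, hs⟩ := ok.leO B C w.le
  have cB := ok.cs B hB
  have cC := ok.cs C hC
  have nB : D.N (b.u B) := am.ok.zfc.trans _ am.ok.hN _ cB.h
  have nC : D.N (b.u C) := am.ok.zfc.trans _ am.ok.hN _ cC.h
  refine ⟨w.le, fun G hG X hX y e => ?_⟩
  have gB : D.Gn (b.u B) (gs G (b.u B)) :=
    ((hBL D am.ok (b.u C) G nC cC.c hG).2 (b.u B) nB hs fun i hi => (cB.c i hi).2).1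
  have a := ((((hPHA D am.ok (b.u B) (b.u C) h σ' nB cB.c nC cC.c hs hh).1 G hG).1 X y e).1)
  have a1 := ((((hPHA D am.ok (b.u B) (b.u C) h1 σ' nB cB.c nC cC.c hs hh1).1 G hG).1 X y e).1)
  rw [a1, ← H _ gB X y e, ← a]
  exact w.e G hG X hX y e

theorem ew {b : BS} {D : Cx} {κ : V} {F : Fam} {σ σ' : Ordinal.{0}} {B h h1 G B' h' G' : V}
    (hPHA : T_PHA) (hBL : T_BL) (am : Amb D κ) (ok : b.Ok D κ) (hh : His D (b.u B) h σ')
    (hh1 : His D (b.u B) h1 σ') (H : Eqv D (b.u B) h h1)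
    (w : b.Ew D F σ B h G B' h' G') : b.Ew D F σ B h1 G B' h' G' :=
  ⟨w.w, lw_r hPHA hBL am ok hh hh1 H w.le, w.g, w.r⟩

theorem kb {b : BS} {D : Cx} {κ : V} {F : Fam} {σ σ' : Ordinal.{0}} {B h h1 G X y : V}
    (hPHA : T_PHA) (hBL : T_BL) (am : Amb D κ) (ok : b.Ok D κ) (hh : His D (b.u B) h σ')
    (hh1 : His D (b.u B) h1 σ') (H : Eqv D (b.u B) h h1) :
    b.Kb D F σ B h G X y ↔ b.Kb D F σ B h1 G X y :=
  ⟨fun ⟨B', h', G', e, k⟩ => ⟨B', h', G', ew hPHA hBL am ok hh hh1 H e, k⟩,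
    fun ⟨B', h', G', e, k⟩ => ⟨B', h', G', ew hPHA hBL am ok hh1 hh H.symm e, k⟩⟩

theorem nn {b : BS} {D : Cx} {κ : V} {F : Fam} {σ σ' : Ordinal.{0}} {B h h1 G X : V}
    (hPHA : T_PHA) (hBL : T_BL) (am : Amb D κ) (ok : b.Ok D κ) (hh : His D (b.u B) h σ')
    (hh1 : His D (b.u B) h1 σ') (H : Eqv D (b.u B) h h1) :
    b.Nn D F σ B h G X ↔ b.Nn D F σ B h1 G X :=
  ⟨fun ⟨B', h', G', y, e, k⟩ => ⟨B', h', G', y, ew hPHA hBL am ok hh hh1 H e, k⟩,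
    fun ⟨B', h', G', y, e, k⟩ => ⟨B', h', G', y, ew hPHA hBL am ok hh1 hh H.symm e, k⟩⟩

theorem rg {b : BS} {D : Cx} {κ : V} {F : Fam} {σ σ' : Ordinal.{0}} {B h h1 G X : V}
    (hPHA : T_PHA) (hBL : T_BL) (am : Amb D κ) (ok : b.Ok D κ) (hh : His D (b.u B) h σ')
    (hh1 : His D (b.u B) h1 σ') (H : Eqv D (b.u B) h h1) :
    b.Rg D F σ B h G X ↔ b.Rg D F σ B h1 G X := by
  unfold BS.Rg
  rw [nn hPHA hBL am ok hh hh1 H]
  refine and_congr_right fun _ => exists_congr fun y => ?_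
  rw [kb hPHA hBL am ok hh hh1 H]

theorem iw {b : BS} {D : Cx} {κ : V} {F : Fam} {σ : Ordinal.{0}} {B h h1 : V}
    (hPHA : T_PHA) (hBL : T_BL) (am : Amb D κ) (ok : b.Ok D κ) (hB : B ∈ b.Ob)
    (hh : His D (b.u B) h σ) (hh1 : His D (b.u B) h1 σ) (H : Eqv D (b.u B) h h1)
    (w : b.Iw D F σ B h) : b.Iw D F σ B h1 := by
  have cB := ok.cs B hB
  have nB : D.N (b.u B) := am.ok.zfc.trans _ am.ok.hN _ cB.h
  have hE : ∀ e, Eqv D (b.u B) (hr h e) (hr h1 e) := fun e =>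
    Eqv.hr hPHA am.ok nB cB.c hh hh1 H e
  have hR : ∀ e, His D (b.u B) (hr h e) e := fun e =>
    ((hPHA D am.ok (b.u B) (b.u B) h σ nB cB.c nB cB.c (fun _ hx => hx) hh).2.1 e).2.1
  have hR1 : ∀ e, His D (b.u B) (hr h1 e) e := fun e =>
    ((hPHA D am.ok (b.u B) (b.u B) h1 σ nB cB.c nB cB.c (fun _ hx => hx) hh1).2.1 e).2.1
  refine ⟨⟨w.wo.o, hh1, fun G hG X y y' e e' h2 h3 => w.wo.f G hG X y y' e e'
    ((H G hG X y e).2 h2) ((H G hG X y' e').2 h3)⟩, ?_, ?_, ?_, ?_, ?_⟩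
  · intro j hj hc
    obtain ⟨h0, p, q⟩ := w.w0 j hj hc
    exact ⟨h0, p, fun G hG X hX y e => by rw [← H G hG X y e]; exact q G hG X hX y e⟩
  · intro j hj hc G hG X y e he
    exact w.w1 j hj hc G hG X y e ((H G hG X y e).2 he)
  · intro e he hl G hG X hX
    have a := w.w2 e he hl G hG X hX
    have a1 : (∃ y, Ent h G X y e) ↔ ∃ y, Ent h1 G X y e := exists_congr fun y => H G hG X y e
    have a2 : Dcc (hr h e) G X ↔ Dcc (hr h1 e) G X :=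
      exists_congr fun y => exists_congr fun d => hE e G hG X y d
    rw [← a1, ← a2, ← rg hPHA hBL am ok (hR e) (hR1 e) (hE e)]
    exact a
  · intro e he G hG X y hy hk
    exact w.w2' e he G hG X y ((H G hG X y e).2 hy)
      ((kb hPHA hBL am ok (hR e) (hR1 e) (hE e)).2 hk)
  · intro e he hl G hG X y hy
    exact w.w3 e he hl G hG X y ((H G hG X y e).2 hy)

end PW3a

open PW3a in
/-- PW3 (3.3) -/
theorem pf_PW3 (hPWE : T_PWE) (hPHA : T_PHA) (hBL : T_BL) : T_PW3 := by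
  intro D κ am b ok σ B h h1 hB hh hh1 H
  have H' : Eqv D (b.u B) h h1 := H
  refine ⟨?_, fun G _ X => ⟨fun y => kb hPHA hBL am ok hh hh1 H', nn hPHA hBL am ok hh hh1 H',
    rg hPHA hBL am ok hh hh1 H'⟩, fun C h0 => ⟨lw_l H', lw_l H'.symm⟩,
    fun C h0 => ⟨lw_r hPHA hBL am ok hh hh1 H', lw_r hPHA hBL am ok hh1 hh H'.symm⟩⟩
  rw [hPWE, hPWE]
  exact ⟨iw hPHA hBL am ok hB hh hh1 H', iw hPHA hBL am ok hB hh1 hh H'.symm⟩

end SE.UZ
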