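import Pool.Agent.H72.UZ.TarZ
import Pool.Agent.H45.UZ.TarP
import Pool.Agent.H41.UZ.Dc

/-!
# MP_f6fd33_lc, module Q2: the secured facts of the new system
-/

open Ordinal Order Set
open scoped ZFSet

namespace SE.UZ

open SF
open _root_.UZ

namespace Q2a

/-- decided reals and the elements of the history -/
theorem dcc_iff {D : Cx} {ρ h : V} {σ : Ordinal.{0}} (hh : His D ρ h σ) (G X : V) :
    Dcc h G X ↔ ∃ z ∈ h, fst z ∈ G ∧ ev G (fst (snd z)) = X := by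
  constructor
  · rintro ⟨y, e, q, hq, X', Y', hm, e1, -⟩
    refine ⟨_, hm, ?_, ?_⟩
    · unfold ht
      rwa [fst_pair]
    · unfold ht
      rwa [snd_pair, fst_pair]
  · rintro ⟨z, hz, h1, h2⟩
    obtain ⟨q, -, X', Y', e, -, -, -, rfl⟩ := hh.m z hz
    unfold ht at h1 h2
    rw [fst_pair] at h1
    rw [snd_pair, fst_pair] at h2
    exact ⟨ev G Y', e, q, h1, X', Y', hz, h2, rfl⟩

theorem dfbS (hL : Lb) : Dfb ZFm (fun (_ : V → Prop) v => ¬ ∃ ξ ∈ v 1, ∃ z ∈ snd (app (v 2) ξ),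
    fst z ∈ v 0 ∧ ev (v 0) (fst (snd z)) =
      prl (kc 0) (prl (ev (v 0) (v 3)) (ev (v 0) (v 4)))) := by
  have h1 : Dfb ZFm (fun (_ : V → Prop) v => fst (v 0) ∈ v 2 ∧ ev (v 2) (fst (snd (v 0))) =
      prl (kc 0) (prl (ev (v 2) (v 5)) (ev (v 2) (v 6)))) :=
    (Dfb.mem (Tm.fst (Tm.var 0)) (Tm.var 2)).and (Dfb.eq
      (Tm.at2 hL.F.ev (Tm.var 2) (Tm.fst (Tm.snd (Tm.var 0))))
      (Tm.at2 hL.F.prl (hL.F.kc 0) (Tm.at2 hL.F.prl (Tm.at2 hL.F.ev (Tm.var 2) (Tm.var 5))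
        (Tm.at2 hL.F.ev (Tm.var 2) (Tm.var 6)))))
  have h2 : Dfb ZFm (fun (_ : V → Prop) v => ∃ z ∈ snd (app (v 3) (v 0)), fst z ∈ v 1 ∧
      ev (v 1) (fst (snd z)) = prl (kc 0) (prl (ev (v 1) (v 4)) (ev (v 1) (v 5)))) :=
    Dfb.bex ktr_zfm (f := fun _ v => snd (app (v 3) (v 0)))
      (Tm.snd (Tm.app (Tm.var 3) (Tm.var 0))) h1
  have h3 : Dfb ZFm (fun (_ : V → Prop) v => ∃ ξ ∈ v 1, ∃ z ∈ snd (app (v 2) ξ), fst z ∈ v 0 ∧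
      ev (v 0) (fst (snd z)) = prl (kc 0) (prl (ev (v 0) (v 3)) (ev (v 0) (v 4)))) :=
    Dfb.bex ktr_zfm (f := fun _ v => v 1) (Tm.var 1) h2
  exact h3.not

end Q2a

open Q2a in
/-- Q2 -/
theorem pf_Q2 (hQ1 : T_Q1) (hW0 : T_W0) (hQRN : T_QRN) (hPHA : T_PHA) (hPWE : T_PWE)
    (hL : Lb) : T_Q2 := by
  intro D κ b am ok T hT ρ nρ cρ hs G hG a x ha hx
  have hD := am.ok
  obtain ⟨t1, t2, -, t4, -⟩ := hW0 D κ b am ok T hT
  have nt : D.N (b.ut κ T) := hD.nH t1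
  have ct := t2.c
  have tt : Tr (b.ut κ T) := fun i hi => (ct i hi).2
  obtain ⟨-, b2⟩ := hL.BL D hD ρ G nρ cρ hG
  obtain ⟨g1, g2, -, g4, -, -, g7⟩ := b2 (b.ut κ T) nt hs tt
  have hd : ∀ X, Dct κ T G X ↔ Dct κ T (gs G (b.ut κ T)) X := by
    intro X
    unfold Dct
    refine exists_congr fun ξ => and_congr_right fun hξ => ?_
    obtain ⟨-, w1, s1⟩ := t4 ξ hξ
    have hw := ((hPWE b D _ _ _).1 w1).wo
    have hC := ok.cs _ hw.o.o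
    have nC := hD.nH hC.h
    have e1 := ((hPHA D hD (b.u (tK T ξ)) ρ _ _ nC hC.c nρ cρ (fun i hi => hs (s1 hi))
      hw.hs).1 G hG).2 X
    have e2 := ((hPHA D hD (b.u (tK T ξ)) (b.ut κ T) _ _ nC hC.c nt ct s1 hw.hs).1 _ g1).2 X
    rw [e1, e2, g7 _ s1]
  have hev : ∀ Y, D.N Y → Nam D.L (b.ut κ T) Y → ev (gs G (b.ut κ T)) Y = ev G Y :=
    fun Y h1 h2 => ((hL.BK D hD ρ G nρ cρ hG).1 _ Y nt hs tt h1 h2).2.2.2.2.2 _ (fun _ h => h)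
  have hdm : ∀ p ∈ D.P (b.ut κ T), dm p ⊆ b.ut κ T := fun p hp =>
    ((hL.BC.2.2.2.1 _ _ p).1 hp).2.1
  obtain ⟨-, -, -, -, -, -, q7⟩ := hQ1 D κ b am ok _ rfl
  constructor
  · rintro ⟨p, hp, a', x', hm, e1, e2⟩
    obtain ⟨T1, p1, a1, x1, -, pp, na, nx, ez, hz⟩ := (q7 _).1 hm
    obtain ⟨rfl, h2⟩ := ZFSet.pair_inj.1 ez
    obtain ⟨rfl, h3⟩ := ZFSet.pair_inj.1 h2
    obtain ⟨rfl, rfl⟩ := ZFSet.pair_inj.1 h3
    have h4 := hz _ g1 ((g4 p).2 ⟨hp, hdm p pp⟩)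
    rw [hev _ na.1 na.2, hev _ nx.1 nx.2, e1, e2, ← hd] at h4
    exact h4
  · intro hn
    have hr := hQRN D hD ρ G (b.ut κ T) nρ cρ hG nt hs tt
    obtain ⟨a', na, ma, ea⟩ := (hr.1 a).1 ha
    obtain ⟨x', nx, mx, ex⟩ := (hr.1 x).1 hx
    have hu : In D.N (cons κ (cons T (cons a' (cons x' fun _ => κ)))) :=
      In.cons (In.cons (In.cons (In.cons (fun _ => hD.nH am.kH) nx) na) hT.n) (hD.nH am.kH)
    obtain ⟨O, nO, hO⟩ := (Dc.base (D := D) (C := fun _ => True) (r := fun _ => b.ut κ T) hL hD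
      (TN.cst nt) (dfbS hL)).dec hL hD (TN.cst nt) hu ⟨t1, ct⟩ trivial
    -- the property in terms of towers
    have key : ∀ G', D.Gn (b.ut κ T) G' →
        (¬ Dct κ T G' (prl (kc 0) (prl (ev G' a') (ev G' x'))) ↔ ∃ p ∈ G', p ∈ O) := by
      intro G' hG'
      rw [← hO G' hG']
      refine not_congr (exists_congr fun ξ => and_congr_right fun hξ => ?_)
      have hw := ((hPWE b D _ _ _).1 (t4 ξ hξ).2.1).wo
      exact dcc_iff hw.hs G' _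
    obtain ⟨p, hp, hpO⟩ := (key _ g1).1 (by
      rw [hev _ na ma, hev _ nx mx, ea, ex, ← hd]
      exact hn)
    have hpP : p ∈ D.P (b.ut κ T) := by
      obtain ⟨-, -, -, -, hJ⟩ := hL.BJ D hD
      exact ((hJ _ nt ct).2 _ g1).2.1.1 hp
    refine ⟨p, g2 hp, a', x', (q7 _).2 ⟨T, p, a', x', hT, hpP, ⟨na, ma⟩, ⟨nx, mx⟩, rfl, ?_⟩,
      ea, ex⟩
    intro G' hG' hp'
    exact (key G' hG').2 ⟨p, hp', hpO⟩

end SE.UZ
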