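import Pool.Agent.H72.UZ.TarZ
import Pool.Agent.H45.UZ.TarP

/-!
# MP_f6fd33_lc, module Q7 (9.6): the relation `D_{l+2}`
-/

open Ordinal Order Set
open scoped ZFSet

namespace SE.UZ

open SF

/-- Q7 (9.6) -/
theorem pf_Q7 (hQ5 : T_Q5) (hQ6 : T_Q6) (hQ3 : T_Q3) (hQRN : T_QRN) (hAH : T_AH)
    (hPHA : T_PHA) (hPWE : T_PWE) : T_Q7 := by
  intro D κ b am ok F Λ G ct z z' hz rz hz' rz'
  have hD := am.ok
  obtain ⟨q1, q2, q3, q4, q5, q6, q7, q8, -⟩ := hQ3 D κ b am ok F Λ G ct _ rfl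
  obtain ⟨a1, a2, -, a4, -⟩ := hAH
  have nΛ : D.N Λ := hD.zfc.trans _ hD.hN _ q3
  obtain ⟨r1, r2, r3, r4, r5, r6, r7, r8, r9, r10, -⟩ :=
    hQRN D hD Λ G Λ nΛ q4.c ct.g nΛ (fun _ h => h) (fun i hi => (q4.c i hi).2)
  have pW : ∀ x y, D.W G x → Rl x → D.W G y → Rl y → D.W G (prl x y) ∧ Rl (prl x y) := by
    intro x y h1 h2 h3 h4
    exact (r4 _).1 (r5 x y ((r4 x).2 ⟨h1, h2⟩) ((r4 y).2 ⟨h3, h4⟩))
  have kW : ∀ e : ℕ, D.W G (kc e) ∧ Rl (kc e) := fun e => (r4 _).1 (r7 e)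
  -- the values of the entries
  have eW : ∀ X y, Enu κ F G X y → D.W G y ∧ Rl y := by
    intro X y he
    obtain ⟨ξ, hξ, e, hE⟩ := (q8 X y).1 he
    have hw := ((hPWE b D _ _ _).1 (q7 ξ hξ)).wo
    have hC := ok.cs _ hw.o.o
    have nC : D.N (b.u (app (resS κ fun ξ => tK (app F ξ) ξ) ξ)) :=
      hD.zfc.trans _ hD.hN _ hC.h
    have hs : b.u (app (resS κ fun ξ => tK (app F ξ) ξ) ξ) ⊆ Λ := by
      rw [← q2]
      intro i hi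
      exact ZFSet.mem_sUnion.2 ⟨_, mem_imS.2 ⟨ξ, hξ, rfl⟩, hi⟩
    have h1 := ((hPHA D hD _ Λ _ _ nC hC.c nΛ q4.c hs hw.hs).1 G ct.g).1 X y e
    have h2 := (h1.2 hE).2.1
    have h3 := hQRN D hD Λ G _ nΛ q4.c ct.g nC hs (fun i hi => (hC.c i hi).2)
    exact (r4 y).1 (h3.2.2.1 y h2)
  have hl : b.l - 1 = (b.l - 3) + 1 + 1 := by
    have := ok.l3
    omega
  -- the relation of the level `l - 2`
  have k1 : ∀ v, D.W G v → Rl v → (Dk (D.W G) D.L (b.l - 3 + 1) v ↔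
      ¬ ∃ i ∈ Λ, kd i = nS (b.l + 2) ∧ v = prm G i) := by
    intro v hv rv
    rw [← hQ6 D κ b am ok F Λ G ct v hv rv]
    have hk := pW (kc 1) v (kW 1).1 (kW 1).2 hv rv
    constructor
    · rintro ⟨y, hy, ry, hn⟩
      refine ⟨y, by_contra fun hc => hn ?_⟩
      exact (hQ5 D κ b am ok F Λ G ct _ y hk.1 hk.2 hy ry).2 hc
    · rintro ⟨y, hy⟩
      obtain ⟨wy, ry⟩ := eW _ _ hy
      refine ⟨y, wy, ry, fun hc => ?_⟩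
      exact (hQ5 D κ b am ok F Λ G ct _ y hk.1 hk.2 wy ry).1 hc hy
  have hw := pW z z' hz rz hz' rz'
  have hkw := pW (kc 1) (prl z z') (kW 1).1 (kW 1).2 hw.1 hw.2
  rw [hl]
  constructor
  · rintro ⟨a, wa, ra, hn⟩
    have hv := pW _ a hkw.1 hkw.2 wa ra
    rw [k1 _ hv.1 hv.2, not_not] at hn
    obtain ⟨i, hi, ki, e⟩ := hn
    refine ⟨i, hi, ki, ?_⟩
    obtain ⟨e1, e2, -⟩ := r9 i hi
    have f1 := a2 _ _ _ _ hkw.2 ra (a1 (kc 1) _ (kW 1).2 e1).1 e2 e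
    exact (a2 _ _ _ _ (kW 1).2 hw.2 (kW 1).2 e1 f1.1).2.symm
  · rintro ⟨i, hi, ki, e⟩
    obtain ⟨e1, e2, -⟩ := r9 i hi
    obtain ⟨f1, f2, -⟩ := r10 i hi
    have wc := (r4 _).1 f2
    have hv := pW _ (cg G i) hkw.1 hkw.2 wc.1 wc.2
    refine ⟨cg G i, wc.1, wc.2, ?_⟩
    rw [k1 _ hv.1 hv.2, not_not]
    refine ⟨i, hi, ki, ?_⟩
    unfold prm
    rw [e]

end SE.UZ
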